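import Pool.Agent.Q262.Miller.Final

set_option autoImplicit false

open UpperHalfPlane hiding I
open EisensteinSeries ModularForm MatrixGroups Polynomial

namespace Pool.Agent.Results.MP_e05153_nt.NoZeroOnAxis

open Q262.Miller

/-- For all `k = 12ℓ + k'` and `0 ≤ m ≤ ℓ` the Miller basis form `f_{k,m}` and its Faber polynomial
`F_{k,m}` exist and are unique, all coefficients of `F_{k,m}(X + 1728)` up to its degree `ℓ - m` are
positive real numbers, and `F_{k,m}` has no zero in `[1728, ∞)`. -/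
theorem result (l k' m : ℕ) (hk : k' ∈ residues) (hm : m ≤ l) :
    (∃! f : ModularForm 𝒮ℒ ((12 * l + k' : ℕ) : ℤ), IsMiller l k' m f) ∧
      (∃! F : ℂ[X], IsFaber l k' m F) ∧
      ∀ F : ℂ[X], IsFaber l k' m F →
        (∀ i ≤ l - m, ∃ r : ℝ, 0 < r ∧ (F.comp (X + C 1728)).coeff i = (r : ℂ)) ∧
          ∀ x : ℝ, 1728 ≤ x → F.eval (x : ℂ) ≠ 0 := by
  obtain ⟨F₀, hF₀⟩ := faber_exists (m := m) hk hm
  refine ⟨?_, ⟨F₀, hF₀, fun G hG => faber_unique hk hG hF₀⟩, ?_⟩
  · obtain ⟨f, hf, _⟩ := hF₀.2.2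
    exact ⟨f, hf, fun g hg => miller_unique hk hg hf⟩
  · intro F hF
    refine ⟨fun i hi => ?_, fun x hx => faber_pos hk hm hF x hx⟩
    have h := faber_coeff_pos hk hm hF i hi
    obtain ⟨h1, h2⟩ := Complex.lt_def.mp h
    refine ⟨_, h1, ?_⟩
    apply Complex.ext
    · simp
    · simpa using h2.symm

end Pool.Agent.Results.MP_e05153_nt.NoZeroOnAxis
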